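import Mathlib

set_option autoImplicit false

/-!
Greedy block counting.
-/

namespace Pool.Agent.H410R3.HTC

open scoped Classical in
/-- one step of the greedy counter -/
noncomputable def stp (Sm : Finset ℕ → Prop) (s : Finset ℕ × ℕ) (n : ℕ) : Finset ℕ × ℕ :=
  if Sm (insert n s.1) then (insert n s.1, s.2) else (∅, s.2 + 1)

/-- the state after reading a finite set in increasing order -/
noncomputable def st (Sm : Finset ℕ → Prop) (F : Finset ℕ) : Finset ℕ × ℕ :=
  (F.sort (· ≤ ·)).foldl (stp Sm) (∅, 0)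

theorem sort_union (G E : Finset ℕ) (h : ∀ i ∈ G, ∀ j ∈ E, i < j) :
    (G ∪ E).sort (· ≤ ·) = G.sort (· ≤ ·) ++ E.sort (· ≤ ·) := by
  apply List.Perm.eq_of_pairwise' (Finset.pairwise_sort _ _)
  · rw [List.pairwise_append]
    refine ⟨Finset.pairwise_sort _ _, Finset.pairwise_sort _ _, fun a ha b hb => ?_⟩
    rw [Finset.mem_sort] at ha hb
    exact (h a ha b hb).le
  · rw [List.perm_ext_iff_of_nodup (Finset.sort_nodup _ _)]
    · intro a
      simp [Finset.mem_sort]
    · rw [List.nodup_append]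
      refine ⟨Finset.sort_nodup _ _, Finset.sort_nodup _ _, fun a ha b hb => ?_⟩
      rw [Finset.mem_sort] at ha hb
      exact (h a ha b hb).ne

theorem fold_small (Sm : Finset ℕ → Prop)
    (hdown : ∀ σ τ : Finset ℕ, τ ⊆ σ → τ.Nonempty → Sm σ → Sm τ) (E : Finset ℕ) (hE : Sm E)
    (l : List ℕ) : ∀ (ρ : Finset ℕ) (c : ℕ), ρ ⊆ E → (∀ n ∈ l, n ∈ E) →
      (l.foldl (stp Sm) (ρ, c)).1 ⊆ E ∧ (l.foldl (stp Sm) (ρ, c)).2 = c := by
  induction l with
  | nil => intro ρ c hρ _; exact ⟨hρ, rfl⟩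
  | cons n l ih =>
    intro ρ c hρ hl
    have hn : n ∈ E := hl n (by simp)
    have hs : insert n ρ ⊆ E := Finset.insert_subset hn hρ
    have h1 : stp Sm (ρ, c) n = (insert n ρ, c) := by
      unfold stp
      rw [if_pos (hdown E _ hs (Finset.insert_nonempty _ _) hE)]
    rw [List.foldl_cons, h1]
    exact ih _ c hs (fun m hm => hl m (by simp [hm]))

theorem fold_block (Sm : Finset ℕ → Prop)
    (hdown : ∀ σ τ : Finset ℕ, τ ⊆ σ → τ.Nonempty → Sm σ → Sm τ) (E : Finset ℕ) (hE : Sm E)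
    (l : List ℕ) : ∀ (ρ : Finset ℕ) (c : ℕ), (∀ n ∈ l, n ∈ E) →
      ((l.foldl (stp Sm) (ρ, c)).2 = c ∧ (l.foldl (stp Sm) (ρ, c)).1 = ρ ∪ l.toFinset ∧
        (l ≠ [] → Sm (ρ ∪ l.toFinset))) ∨ (l.foldl (stp Sm) (ρ, c)).2 = c + 1 := by
  induction l with
  | nil => intro ρ c _; left; simp
  | cons n l ih =>
    intro ρ c hl
    have hl' : ∀ m ∈ l, m ∈ E := fun m hm => hl m (by simp [hm])
    by_cases hs : Sm (insert n ρ)
    · have h1 : stp Sm (ρ, c) n = (insert n ρ, c) := by
        unfold stp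
        rw [if_pos hs]
      rw [List.foldl_cons, h1]
      have e : insert n ρ ∪ l.toFinset = ρ ∪ (n :: l).toFinset := by
        rw [List.toFinset_cons, Finset.insert_union, Finset.union_insert]
      rcases ih (insert n ρ) c hl' with ⟨h2, h3, h4⟩ | h2
      · left
        refine ⟨h2, by rw [h3, e], fun _ => ?_⟩
        by_cases hnil : l = []
        · subst hnil
          rw [← e]
          simpa using hs
        · rw [← e]
          exact h4 hnil
      · right
        exact h2
    · right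
      have h1 : stp Sm (ρ, c) n = (∅, c + 1) := by
        unfold stp
        rw [if_neg hs]
      rw [List.foldl_cons, h1]
      exact (fold_small Sm hdown E hE l ∅ (c + 1) (Finset.empty_subset _) hl').2

theorem count_core (Sm : Finset ℕ → Prop)
    (hdown : ∀ σ τ : Finset ℕ, τ ⊆ σ → τ.Nonempty → Sm σ → Sm τ)
    (hZ : ∀ Z : Set ℕ, Z.Infinite → ∃ σ : Finset ℕ, σ.Nonempty ∧ (∀ i ∈ σ, i ∈ Z) ∧ ¬ Sm σ) :
    ∃ c : Finset ℕ → Bool, ∀ E : ℕ → Finset ℕ, (∀ k, (E k).Nonempty) →
      (∀ k, ∀ i ∈ E k, ∀ j ∈ E (k + 1), i < j) → (∀ k, Sm (E (k + 1))) →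
        ∃ k, c ((Finset.range (k + 1)).biUnion E) ≠ c ((Finset.range (k + 2)).biUnion E) := by
  refine ⟨fun F => decide ((st Sm F).2 % 2 = 1), fun E hne hlt hSm => ?_⟩
  by_contra hcon
  push Not at hcon
  set G : ℕ → Finset ℕ := fun k => (Finset.range (k + 1)).biUnion E with hG
  have hGs : ∀ k, G (k + 1) = G k ∪ E (k + 1) := by
    intro k
    simp only [hG]
    rw [Finset.range_add_one, Finset.biUnion_insert, Finset.union_comm]
  have hmono : ∀ k m, m ≤ k → ∀ i ∈ E m, ∀ j ∈ E (k + 1), i < j := by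
    intro k
    induction k with
    | zero =>
      intro m hm i hi j hj
      obtain rfl : m = 0 := by omega
      exact hlt 0 i hi j hj
    | succ k ih =>
      intro m hm i hi j hj
      rcases Nat.lt_or_ge m (k + 1) with h | h
      · obtain ⟨x, hx⟩ := hne (k + 1)
        exact (ih m (by omega) i hi x hx).trans (hlt (k + 1) x hx j hj)
      · obtain rfl : m = k + 1 := by omega
        exact hlt (k + 1) i hi j hj
  have hGE : ∀ k, ∀ i ∈ G k, ∀ j ∈ E (k + 1), i < j := by
    intro k i hi j hj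
    simp only [hG, Finset.mem_biUnion, Finset.mem_range] at hi
    obtain ⟨m, hm, him⟩ := hi
    exact hmono k m (by omega) i him j hj
  have hst : ∀ k, st Sm (G (k + 1)) =
      ((E (k + 1)).sort (· ≤ ·)).foldl (stp Sm) (st Sm (G k)) := by
    intro k
    unfold st
    rw [hGs, sort_union _ _ (hGE k), List.foldl_append]
  have hstep : ∀ k, (st Sm (G (k + 1))).1 = (st Sm (G k)).1 ∪ E (k + 1) ∧
      Sm ((st Sm (G (k + 1))).1) := by
    intro k
    have h1 := hcon k
    have h2 := fold_block Sm hdown (E (k + 1)) (hSm k) ((E (k + 1)).sort (· ≤ ·))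
      (st Sm (G k)).1 (st Sm (G k)).2 (fun n hn => (Finset.mem_sort _).1 hn)
    rw [Prod.mk.eta, ← hst k] at h2
    rw [Finset.sort_toFinset] at h2
    have hnil : (E (k + 1)).sort (· ≤ ·) ≠ [] := by
      intro h
      obtain ⟨x, hx⟩ := hne (k + 1)
      have : x ∈ (E (k + 1)).sort (· ≤ ·) := (Finset.mem_sort _).2 hx
      rw [h] at this
      simp at this
    rcases h2 with ⟨-, h3, h4⟩ | h2
    · exact ⟨h3, by rw [h3]; exact h4 hnil⟩
    · exfalso
      have e1 : (Finset.range (k + 1)).biUnion E = G k := rfl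
      have e2 : (Finset.range (k + 2)).biUnion E = G (k + 1) := rfl
      rw [e1, e2, h2] at h1
      have h5 := decide_eq_decide.1 h1
      omega
  have hsub : ∀ k m, m < k → E (m + 1) ⊆ (st Sm (G k)).1 := by
    intro k
    induction k with
    | zero => intro m hm; omega
    | succ k ih =>
      intro m hm
      rw [(hstep k).1]
      rcases Nat.lt_or_ge m k with h | h
      · exact (ih m h).trans Finset.subset_union_left
      · obtain rfl : m = k := by omega
        exact Finset.subset_union_right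
  let Z : Set ℕ := {i | ∃ m, i ∈ E (m + 1)}
  have hZinf : Z.Infinite := by
    refine Set.infinite_of_not_bddAbove ?_
    rintro ⟨B, hB⟩
    have hgrow : ∀ m, ∀ i ∈ E (m + 1), m ≤ i := by
      intro m
      induction m with
      | zero => intro i _; omega
      | succ m ih =>
        intro i hi
        obtain ⟨x, hx⟩ := hne (m + 1)
        have h1 := ih x hx
        have h2 := hlt (m + 1) x hx i hi
        omega
    obtain ⟨x, hx⟩ := hne (B + 1 + 1)
    have h1 := hgrow (B + 1) x hx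
    have h2 : x ≤ B := hB ⟨B + 1, hx⟩
    omega
  obtain ⟨σ, hσ1, hσ2, hσ3⟩ := hZ Z hZinf
  have hK : ∃ K, ∀ i ∈ σ, ∃ m < K, i ∈ E (m + 1) := by
    choose! f hf using hσ2
    refine ⟨σ.sup f + 1, fun i hi => ⟨f i, ?_, hf i hi⟩⟩
    exact Nat.lt_succ_of_le (Finset.le_sup hi)
  obtain ⟨K, hK⟩ := hK
  have hσK : σ ⊆ (st Sm (G (K + 1))).1 := by
    intro i hi
    obtain ⟨m, hm, him⟩ := hK i hi
    exact hsub (K + 1) m (by omega) him
  exact hσ3 (hdown _ σ hσK hσ1 (hstep K).2)

end Pool.Agent.H410R3.HTC
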