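import Pool.Agent.H938R3.HT.Stmts
import Pool.Agent.H410R3.HTC.Cnt

namespace Pool.Agent.H410R3.HTC

open Pool.Agent.H938R3.HT

theorem count : TaskCOUNT := fun Sm hdown hZ => count_core Sm hdown hZ

end Pool.Agent.H410R3.HTC
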